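import Pool.Agent.Helper51.Hart.Defs2

/-! # HT-12 : push out (second order Taylor expansion in `ℝ × ℂ`) -/

set_option autoImplicit false

noncomputable section

open Set Metric Complex MeasureTheory

namespace Pool.Helper51.Hart

variable {σ : ℝ × ℂ → ℝ}

private lemma h69_line (hs : ContDiff ℝ ((⊤ : ℕ∞) : WithTop ℕ∞) σ) (p d : ℝ × ℂ) (t : ℝ) :
    HasDerivAt (fun t : ℝ => σ (p + t • d)) (fderiv ℝ σ (p + t • d) d) t := by
  have h1 : HasFDerivAt σ (fderiv ℝ σ (p + t • d)) (p + t • d) :=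
    (hs.differentiable (by simp) _).hasFDerivAt
  have h2 : HasDerivAt (fun t : ℝ => p + t • d) d t := by
    simpa using ((hasDerivAt_id t).smul_const d).const_add p
  exact h1.comp_hasDerivAt t h2

private lemma h69_line2 (hs : ContDiff ℝ ((⊤ : ℕ∞) : WithTop ℕ∞) σ) (p d e : ℝ × ℂ) (t : ℝ) :
    HasDerivAt (fun t : ℝ => fderiv ℝ σ (p + t • d) e)
      (fderiv ℝ (fderiv ℝ σ) (p + t • d) d e) t := by
  have h0 : ContDiff ℝ 1 (fderiv ℝ σ) := hs.fderiv_right (by norm_cast)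
  have h1 : HasFDerivAt (fderiv ℝ σ) (fderiv ℝ (fderiv ℝ σ) (p + t • d)) (p + t • d) :=
    (h0.differentiable (by simp) _).hasFDerivAt
  have h2 : HasDerivAt (fun t : ℝ => p + t • d) d t := by
    simpa using ((hasDerivAt_id t).smul_const d).const_add p
  have h3 : HasDerivAt (fun t : ℝ => fderiv ℝ σ (p + t • d))
      (fderiv ℝ (fderiv ℝ σ) (p + t • d) d) t := h1.comp_hasDerivAt t h2
  have h4 := h3.clm_apply (hasDerivAt_const t e)
  simpa using h4

/-- HT-12 -/
theorem push_out (hσ : Slice σ) : PushOut σ := by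
  intro w₀ v r h ς hh hς hz hv hc
  have hs := hσ.smooth
  have hς2 : ς * ς = 1 := by rcases hς with rfl | rfl <;> norm_num
  have hline := h69_line hs
  have hline2 := h69_line2 hs
  set p : ℝ × ℂ := (r, w₀) with hp
  set B := fderiv ℝ (fderiv ℝ σ) p with hB
  set e : ℝ × ℂ := (1, 0) with he
  set V : ℝ × ℂ := (0, v) with hV
  set d₀ : ℝ × ℂ := (-ς, 0) with hd₀
  have hd₀e : d₀ = (-ς) • e := by simp [hd₀, he]
  -- vanishing along the segment
  have hU : ∀ s ∈ Icc (0 : ℝ) h, σ (p + s • d₀) = 0 := by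
    intro s hs'
    have := hz s hs'
    have h2 : p + s • d₀ = (r - ς * s, w₀) := by
      simp only [hp, hd₀, Prod.smul_mk, Prod.mk_add_mk, smul_eq_mul, smul_zero, add_zero]
      congr 1
      ring
    rw [h2]
    exact this
  have hU1 : ∀ s ∈ Icc (0 : ℝ) h, fderiv ℝ σ (p + s • d₀) d₀ = 0 := by
    intro s hs'
    have h1 : HasDerivWithinAt (fun t : ℝ => σ (p + t • d₀)) (fderiv ℝ σ (p + s • d₀) d₀)
        (Icc 0 h) s := (hline p d₀ s).hasDerivWithinAt
    have h2 : HasDerivWithinAt (fun t : ℝ => σ (p + t • d₀)) 0 (Icc 0 h) s :=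
      (hasDerivWithinAt_const s (Icc 0 h) (0 : ℝ)).congr hU (hU s hs')
    exact (uniqueDiffOn_Icc hh s hs').eq_deriv _ h1 h2
  have h0mem : (0 : ℝ) ∈ Icc 0 h := ⟨le_rfl, hh.le⟩
  have hU2 : B d₀ d₀ = 0 := by
    have h1 : HasDerivWithinAt (fun t : ℝ => fderiv ℝ σ (p + t • d₀) d₀)
        (fderiv ℝ (fderiv ℝ σ) (p + (0 : ℝ) • d₀) d₀ d₀) (Icc 0 h) 0 :=
      (hline2 p d₀ d₀ 0).hasDerivWithinAt
    have h2 : HasDerivWithinAt (fun t : ℝ => fderiv ℝ σ (p + t • d₀) d₀) 0 (Icc 0 h) 0 :=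
      (hasDerivWithinAt_const (0 : ℝ) (Icc 0 h) (0 : ℝ)).congr hU1 (hU1 0 h0mem)
    have h3 := (uniqueDiffOn_Icc hh 0 h0mem).eq_deriv _ h1 h2
    simpa [hB] using h3
  have hBee : B e e = 0 := by
    rw [hd₀e] at hU2
    simp only [map_smul, smul_apply, smul_eq_mul] at hU2
    have : (-ς) * ((-ς) * B e e) = B e e := by linear_combination (B e e) * hς2
    rw [← this]
    exact hU2
  have hee : fderiv ℝ σ p e = 0 := by
    have h1 := hU1 0 h0mem
    rw [zero_smul, add_zero, hd₀e, map_smul, smul_eq_mul] at h1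
    have hς0 : -ς ≠ 0 := by rcases hς with rfl | rfl <;> norm_num
    exact (mul_eq_zero.1 h1).resolve_left hς0
  -- the mixed derivative
  have hmix : deriv (fun s : ℝ => fderiv ℝ σ (s, w₀) V) r = B e V := by
    have h1 := hline2 (0, w₀) e V r
    have h2 : (fun t : ℝ => fderiv ℝ σ ((0, w₀) + t • e) V) =
        fun s : ℝ => fderiv ℝ σ (s, w₀) V := by
      funext t
      simp [he]
    have h3 : ((0, w₀) : ℝ × ℂ) + r • e = p := by simp [he, hp]
    rw [h2, h3] at h1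
    exact h1.deriv
  rw [hmix] at hc
  have hsymm : B V e = B e V := by
    have : IsSymmSndFDerivAt ℝ σ p := hs.contDiffAt.isSymmSndFDerivAt (by
      rw [minSmoothness_of_isRCLikeNormedField]
      exact WithTop.coe_le_coe.2 le_top)
    exact this V e
  set c := ς * B e V with hcdef
  obtain ⟨M, hM0, hM⟩ : ∃ M : ℝ, 0 < M ∧ B V V < 2 * M * c := by
    refine ⟨|B V V| / c + 1, by positivity, ?_⟩
    have h1 : 2 * (|B V V| / c + 1) * c = 2 * |B V V| + 2 * c := by
      field_simp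
    rw [h1]
    have := le_abs_self (B V V)
    have := abs_nonneg (B V V)
    linarith
  refine ⟨M, hM0, ?_⟩
  set d : ℝ × ℂ := (ς * M, -v) with hd
  have hde : d = (ς * M) • e - V := by
    simp [hd, he, hV]
  have hBdd : B d d < 0 := by
    have h1 : B d d = (ς * M) * ((ς * M) * B e e) - (ς * M) * B e V - (ς * M) * B V e + B V V := by
      rw [hde]
      simp only [map_sub, map_smul, smul_apply,
        sub_apply, smul_eq_mul]
      ring
    rw [h1, hBee, hsymm]
    have h2 : ς * M * (ς * M * 0) - ς * M * B e V - ς * M * B e V + B V V =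
        B V V - 2 * M * c := by
      rw [hcdef]; ring
    rw [h2]
    linarith
  have hψ0 : fderiv ℝ σ p d = 0 := by
    rw [hde, map_sub, map_smul, hee, hv]
    simp
  have hψ : HasDerivAt (fun t : ℝ => fderiv ℝ σ (p + t • d) d) (B d d) 0 := by
    simpa [hB] using hline2 p d d 0
  have hev : ∀ᶠ t in nhdsWithin (0 : ℝ) (Ioi 0), fderiv ℝ σ (p + t • d) d < 0 := by
    have h1 := hψ.tendsto_slope_zero
    have h2 : ∀ᶠ t in nhdsWithin (0 : ℝ) {0}ᶜ, t⁻¹ • (fderiv ℝ σ (p + (0 + t) • d) d -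
        fderiv ℝ σ (p + (0 : ℝ) • d) d) < 0 := h1.eventually (gt_mem_nhds hBdd)
    have h3 : nhdsWithin (0 : ℝ) (Ioi 0) ≤ nhdsWithin (0 : ℝ) {0}ᶜ :=
      nhdsWithin_mono _ fun x hx => ne_of_gt hx
    filter_upwards [h3 h2, self_mem_nhdsWithin] with t ht ht0
    rw [zero_add, zero_smul, add_zero, hψ0, sub_zero, smul_eq_mul] at ht
    have ht0' : (0 : ℝ) < t := ht0
    have hinv : 0 < t⁻¹ := inv_pos.2 ht0'
    by_contra hcon
    push Not at hcon
    have := mul_nonneg hinv.le hcon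
    linarith
  obtain ⟨τ₀, hτ₀, hτ⟩ := (mem_nhdsGT_iff_exists_Ioo_subset).1 hev
  refine ⟨τ₀, hτ₀, fun τ h1 h2 => ?_⟩
  obtain ⟨ξ, hξ, hξ'⟩ := exists_hasDerivAt_eq_slope (fun t : ℝ => σ (p + t • d))
    (fun t => fderiv ℝ σ (p + t • d) d) h1
    (fun t _ => (hline p d t).continuousAt.continuousWithinAt) (fun t _ => hline p d t)
  have hneg : fderiv ℝ σ (p + ξ • d) d < 0 := hτ ⟨hξ.1, hξ.2.trans h2⟩
  have hp0 : σ (p + (0 : ℝ) • d) = 0 := by
    have := hU 0 h0mem
    simpa using this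
  have heq : p + τ • d = (r + ς * (M * τ), w₀ - τ * v) := by
    simp only [hp, hd, Prod.smul_mk, Prod.mk_add_mk, smul_eq_mul, smul_neg, real_smul]
    congr 1
    ring
  rw [← heq]
  rw [hξ'] at hneg
  simp only [sub_zero] at hneg
  rw [hp0, sub_zero] at hneg
  by_contra hcon
  push Not at hcon
  have := div_nonneg hcon h1.le
  linarith

end Pool.Helper51.Hart
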